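import Pool.Agent.H292Z.Euclid

set_option autoImplicit false

/-- Every finite transitive set `X` in `ℝ^d` is subsoluble: for some `n ≥ d` there is a finite set
`Y` in `ℝ^n`, a soluble group `H` of isometries of `ℝ^n` (even a finite 2-group) mapping `Y` onto
itself and transitive on `Y`, and an isometry of `ℝ^n` carrying `X` (placed in the first `d`
coordinates) into `Y`. -/
theorem Pool.Agent.Results.MP_528470_co.ATransitiveSubsoluble.result :
    ∀ (d : ℕ) (X : Set (EuclideanSpace ℝ (Fin d))), X.Finite →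
      (∀ x ∈ X, ∀ y ∈ X, ∃ g : EuclideanSpace ℝ (Fin d) ≃ᵢ EuclideanSpace ℝ (Fin d),
        g '' X = X ∧ g x = y) →
      ∃ (n : ℕ) (_ : d ≤ n) (Y : Set (EuclideanSpace ℝ (Fin n))), Y.Finite ∧ Y.Nonempty ∧
        (∃ H : Subgroup (EuclideanSpace ℝ (Fin n) ≃ᵢ EuclideanSpace ℝ (Fin n)),
          Group.IsSolvable H ∧ Finite H ∧ IsPGroup 2 H ∧
          (∀ h ∈ H, h '' Y = Y) ∧ ∀ y ∈ Y, ∀ z ∈ Y, ∃ h ∈ H, h y = z) ∧
        ∃ φ : EuclideanSpace ℝ (Fin n) ≃ᵢ EuclideanSpace ℝ (Fin n), ∀ x ∈ X,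
          φ (WithLp.toLp 2 fun k : Fin n => if h : k.val < d then x ⟨k.val, h⟩ else 0) ∈ Y :=
  fun _ X hX ht => Pool.Agent.H292Z.transitive_subsoluble X hX ht
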